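import Pool.Agent.helper35.MR.SpecA

/-!
# Module mr:STR (MP_b48e27_co): strict words
-/

set_option autoImplicit false

namespace Pool.Agent.helper35.MR

open Finset Pool.Agent.RRank

/-- All sizes. -/
def STR_G {K : Type} [Field K] (V : ℤ → ℤ → ℤ → K) : Prop := ∀ l : ℕ, 1 ≤ l → Good3 V l

lemma STR_ot_xy {K : Type} (V : ℤ → ℤ → ℤ → K) (h : OT3 V) : OT3 (fun x y z => V y x z) := by
  intro x y z x' y' z' h1 h2 h3
  refine h y x z y' x' z' ?_ h3 h2
  rw [← cmp_swap x y, ← cmp_swap x' y', h1]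

lemma STR_ot_yz {K : Type} (V : ℤ → ℤ → ℤ → K) (h : OT3 V) : OT3 (fun x y z => V x z y) := by
  intro x y z x' y' z' h1 h2 h3
  refine h x z y x' z' y' h3 ?_ h1
  rw [← cmp_swap y z, ← cmp_swap y' z', h2]

lemma STR_neg (x y : ℤ) : cmp (-x) (-y) = cmp y x := by
  rcases lt_trichotomy x y with h | h | h
  · rw [(cmp_eq_gt_iff _ _).mpr (by omega), (cmp_eq_gt_iff _ _).mpr (by omega)]
  · rw [h, (cmp_eq_eq_iff _ _).mpr rfl, (cmp_eq_eq_iff _ _).mpr rfl]
  · rw [(cmp_eq_lt_iff _ _).mpr (by omega), (cmp_eq_lt_iff _ _).mpr (by omega)]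

lemma STR_ot_rev {K : Type} (V : ℤ → ℤ → ℤ → K) (h : OT3 V) :
    OT3 (fun x y z => V (-x) (-y) (-z)) := by
  intro x y z x' y' z' h1 h2 h3
  apply h
  · rw [STR_neg, STR_neg, ← cmp_swap x y, ← cmp_swap x' y', h1]
  · rw [STR_neg, STR_neg, ← cmp_swap y z, ← cmp_swap y' z', h2]
  · rw [STR_neg, STR_neg, ← cmp_swap x z, ← cmp_swap x' z', h3]

lemma STR_two (hS1 : S1_stmt) (hSY : SYM_stmt) {K : Type} [Field K] (V : ℤ → ℤ → ℤ → K)
    (h : OT3 V) (h0 : V 0 1 2 ≠ 0 ∨ V 2 1 0 ≠ 0)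
    (hR : V 1 0 2 + V 1 2 0 - V 0 2 1 - V 2 0 1 ≠ 0) : STR_G V := by
  rcases h0 with h0 | h0
  · exact hS1 K V h h0 hR
  · intro l hl
    apply (hSY K V l).2.2
    have e1 : V (-0) (-1) (-2) = V 2 1 0 := h _ _ _ _ _ _ rfl rfl rfl
    have e2 : V (-1) (-0) (-2) = V 1 2 0 := h _ _ _ _ _ _ rfl rfl rfl
    have e3 : V (-1) (-2) (-0) = V 1 0 2 := h _ _ _ _ _ _ rfl rfl rfl
    have e4 : V (-0) (-2) (-1) = V 2 0 1 := h _ _ _ _ _ _ rfl rfl rfl
    have e5 : V (-2) (-0) (-1) = V 0 2 1 := h _ _ _ _ _ _ rfl rfl rfl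
    refine hS1 K (fun x y z => V (-x) (-y) (-z)) (STR_ot_rev V h) ?_ ?_ l hl
    · show V (-0) (-1) (-2) ≠ 0
      rw [e1]; exact h0
    · show V (-1) (-0) (-2) + V (-1) (-2) (-0) - V (-0) (-2) (-1) - V (-2) (-0) (-1) ≠ 0
      rw [e2, e3, e4, e5]
      intro h1
      apply hR
      linear_combination h1

lemma STR_s2 (hS2 : S2_stmt) (hSY : SYM_stmt) {K : Type} [Field K] (V : ℤ → ℤ → ℤ → K)
    (h : OT3 V) (h0 : V 0 1 2 + V 2 1 0 ≠ 0) (h1 : V 1 0 2 = 0) (h2 : V 1 2 0 = 0)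
    (h3 : V 0 2 1 = 0) (h4 : V 2 0 1 = 0) : STR_G V := by
  by_cases hA : V 0 1 2 = 0
  · have hD : V 2 1 0 ≠ 0 := by
      intro hD
      rw [hA, hD] at h0
      simp at h0
    intro l hl
    apply (hSY K V l).2.2
    have e1 : V (-0) (-1) (-2) = V 2 1 0 := h _ _ _ _ _ _ rfl rfl rfl
    have e2 : V (-1) (-0) (-2) = V 1 2 0 := h _ _ _ _ _ _ rfl rfl rfl
    have e3 : V (-1) (-2) (-0) = V 1 0 2 := h _ _ _ _ _ _ rfl rfl rfl
    have e4 : V (-0) (-2) (-1) = V 2 0 1 := h _ _ _ _ _ _ rfl rfl rfl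
    have e5 : V (-2) (-0) (-1) = V 0 2 1 := h _ _ _ _ _ _ rfl rfl rfl
    have e6 : V (-2) (-1) (-0) = V 0 1 2 := h _ _ _ _ _ _ rfl rfl rfl
    refine hS2 K (fun x y z => V (-x) (-y) (-z)) (STR_ot_rev V h) ?_ ?_ ?_ ?_ ?_ ?_ l hl
    · show V (-0) (-1) (-2) ≠ 0
      rw [e1]; exact hD
    · show V (-0) (-1) (-2) + V (-2) (-1) (-0) ≠ 0
      rw [e1, e6, hA, add_zero]; exact hD
    · show V (-1) (-0) (-2) = 0
      rw [e2, h2]
    · show V (-2) (-0) (-1) = 0
      rw [e5, h3]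
    · show V (-0) (-2) (-1) = 0
      rw [e4, h4]
    · show V (-1) (-2) (-0) = 0
      rw [e3, h1]
  · exact hS2 K V h hA h0 h1 h4 h3 h2

theorem STR (hS1 : S1_stmt) (hS2 : S2_stmt) (hSY : SYM_stmt) : STR_stmt := by
  intro K _ V hV hno
  change STR_G V
  by_contra hG
  have gxy : STR_G (fun x y z => V y x z) → STR_G V := fun h l hl => (hSY K V l).1 (h l hl)
  have gyz : STR_G (fun x y z => V x z y) → STR_G V := fun h l hl => (hSY K V l).2.1 (h l hl)
  have oxy := STR_ot_xy V hV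
  have oyz := STR_ot_yz V hV
  -- the three consequences of `S1`
  have c1 : V 1 0 2 + V 1 2 0 - V 0 2 1 - V 2 0 1 ≠ 0 → V 0 1 2 = 0 ∧ V 2 1 0 = 0 := by
    intro hR
    by_contra hcon
    apply hG
    refine STR_two hS1 hSY V hV ?_ hR
    by_contra h
    push Not at h
    exact hcon h
  have c2 : V 0 1 2 + V 2 1 0 - V 2 0 1 - V 0 2 1 ≠ 0 → V 1 0 2 = 0 ∧ V 1 2 0 = 0 := by
    intro hR
    by_contra hcon
    apply hG
    apply gxy
    refine STR_two hS1 hSY _ oxy ?_ hR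
    by_contra h
    push Not at h
    exact hcon h
  have c3 : V 1 2 0 + V 1 0 2 - V 0 1 2 - V 2 1 0 ≠ 0 → V 0 2 1 = 0 ∧ V 2 0 1 = 0 := by
    intro hR
    by_contra hcon
    apply hG
    apply gyz
    refine STR_two hS1 hSY _ oyz ?_ hR
    by_contra h
    push Not at h
    exact hcon h
  by_cases hxz : V 1 0 2 + V 1 2 0 - V 0 2 1 - V 2 0 1 = 0
  · by_cases hxy : V 1 2 0 + V 1 0 2 - V 0 1 2 - V 2 1 0 = 0
    · -- normal form
      apply hno
      refine ⟨fun o => if o = Ordering.lt then V 1 2 0 else V 2 1 0,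
        fun o => if o = Ordering.lt then V 2 0 1 - V 2 1 0 else 0,
        fun o => if o = Ordering.lt then V 0 2 1 - V 1 2 0 else 0, ?_⟩
      intro x y z hxy' hyz' hxz'
      have lt' : ∀ {a b : ℤ}, a < b → cmp a b = Ordering.lt := fun h => (cmp_eq_lt_iff _ _).mpr h
      have gt' : ∀ {a b : ℤ}, b < a → cmp a b = Ordering.gt := fun h => (cmp_eq_gt_iff _ _).mpr h
      have hlg : (Ordering.gt = Ordering.lt) = False := by simp
      rcases lt_or_gt_of_ne hxy' with p | p <;> rcases lt_or_gt_of_ne hyz' with q | q <;>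
        rcases lt_or_gt_of_ne hxz' with r | r
      · have e : V x y z = V 0 1 2 := hV _ _ _ _ _ _ (by rw [lt' p]; rfl) (by rw [lt' q]; rfl)
          (by rw [lt' r]; rfl)
        rw [e]
        simp only [lt' p, lt' q, lt' r, if_true]
        linear_combination (-1 : K) * hxy + hxz
      · omega
      · have e : V x y z = V 0 2 1 := hV _ _ _ _ _ _ (by rw [lt' p]; rfl) (by rw [gt' q]; rfl)
          (by rw [lt' r]; rfl)
        rw [e]
        simp only [lt' p, gt' q, lt' r, if_true, hlg, if_false]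
        ring
      · have e : V x y z = V 1 2 0 := hV _ _ _ _ _ _ (by rw [lt' p]; rfl) (by rw [gt' q]; rfl)
          (by rw [gt' r]; rfl)
        rw [e]
        simp only [lt' p, gt' q, gt' r, if_true, hlg, if_false]
        ring
      · have e : V x y z = V 1 0 2 := hV _ _ _ _ _ _ (by rw [gt' p]; rfl) (by rw [lt' q]; rfl)
          (by rw [lt' r]; rfl)
        rw [e]
        simp only [gt' p, lt' q, lt' r, if_true, hlg, if_false]
        linear_combination hxz
      · have e : V x y z = V 2 0 1 := hV _ _ _ _ _ _ (by rw [gt' p]; rfl) (by rw [lt' q]; rfl)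
          (by rw [gt' r]; rfl)
        rw [e]
        simp only [gt' p, lt' q, gt' r, if_true, hlg, if_false]
        ring
      · omega
      · have e : V x y z = V 2 1 0 := hV _ _ _ _ _ _ (by rw [gt' p]; rfl) (by rw [gt' q]; rfl)
          (by rw [gt' r]; rfl)
        rw [e]
        simp only [gt' p, gt' q, gt' r, hlg, if_false]
        ring
    · obtain ⟨hF, hE⟩ := c3 hxy
      obtain ⟨hB, hC⟩ := c2 (by
        intro h
        apply hxy
        linear_combination hxz - h)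
      apply hG
      refine STR_s2 hS2 hSY V hV ?_ hB hC hF hE
      intro h
      apply hxy
      rw [hB, hC]
      linear_combination (-1 : K) * h
  · obtain ⟨hA, hD⟩ := c1 hxz
    by_cases hxy : V 1 2 0 + V 1 0 2 - V 0 1 2 - V 2 1 0 = 0
    · obtain ⟨hB, hC⟩ := c2 (by
        intro h
        apply hxz
        linear_combination hxy + h)
      apply hG
      apply gyz
      refine STR_s2 hS2 hSY _ oyz ?_ hC hB hA hD
      show V 0 2 1 + V 2 0 1 ≠ 0
      intro h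
      apply hxz
      rw [hB, hC]
      linear_combination (-1 : K) * h
    · obtain ⟨hF, hE⟩ := c3 hxy
      apply hG
      apply gxy
      refine STR_s2 hS2 hSY _ oxy ?_ hA hD hE hF
      show V 1 0 2 + V 1 2 0 ≠ 0
      intro h
      apply hxz
      rw [hF, hE]
      linear_combination h

end Pool.Agent.helper35.MR
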